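import Pool.Agent.R932.PO.Gour

/-!
# Lie algebras which project onto symplectic and orthogonal ones: small and commutative parts split off
-/

set_option autoImplicit false
set_option linter.style.haveILetI false

open Matrix
open Pool.Agent.Y142.ZO Pool.Agent.Y142.ZI Pool.Agent.Y142.ZS Pool.Agent.R932.PO

namespace Pool.Agent.U190.JS

section dim
variable {F : Type} [Field F] {N : ℕ}

/-- the matrix with the entries `c` above the diagonal -/
def upper (N : ℕ) (c : (Σ q : Fin N, Fin q.val) → F) : Matrix (Fin N) (Fin N) F :=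
  Matrix.of fun p q => if h : p.val < q.val then c ⟨q, ⟨p.val, h⟩⟩ else 0

/-- the matrix with the entries `c` on and above the diagonal -/
def upper' (N : ℕ) (c : (Σ q : Fin N, Fin (q.val + 1)) → F) : Matrix (Fin N) (Fin N) F :=
  Matrix.of fun p q => if h : p.val < q.val + 1 then c ⟨q, ⟨p.val, h⟩⟩ else 0

theorem card_lower (N : ℕ) : Fintype.card (Σ q : Fin N, Fin q.val) = N * (N - 1) / 2 := by
  rw [Fintype.card_sigma]
  simp only [Fintype.card_fin]
  rw [Fin.sum_univ_eq_sum_range (fun i => i) N, Finset.sum_range_id]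

theorem card_lower' (N : ℕ) : Fintype.card (Σ q : Fin N, Fin (q.val + 1)) = N * (N + 1) / 2 := by
  rw [Fintype.card_sigma]
  simp only [Fintype.card_fin]
  rw [Fin.sum_univ_eq_sum_range (fun i => i + 1) N]
  have h := Finset.sum_range_succ' (fun i => i) N
  rw [Finset.sum_range_id, add_zero] at h
  rw [← h, Nat.add_sub_cancel, Nat.mul_comm]

theorem dim_lower {J : Matrix (Fin N) (Fin N) F} (hdet : J.det ≠ 0) (hJ : Jᵀ = J) :
    N * (N - 1) / 2 ≤ Module.finrank F (spSub J) := by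
  have hu : IsUnit J.det := isUnit_iff_ne_zero.2 hdet
  have hJK : ∀ M : Matrix (Fin N) (Fin N) F, J * (J⁻¹ * M) = M := fun M => by
    rw [← Matrix.mul_assoc, Matrix.mul_nonsing_inv _ hu, Matrix.one_mul]
  let φ : ((Σ q : Fin N, Fin q.val) → F) →ₗ[F] spSub J :=
    { toFun := fun c => ⟨J⁻¹ * (upper N c - (upper N c)ᵀ), by
        refine sp_inv hdet (e := 1) (by rw [one_smul, hJ]) ?_
        rw [one_smul, transpose_sub, transpose_transpose, neg_sub]⟩
      map_add' := by
        intro c c'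
        apply Subtype.ext
        have h1 : upper N (c + c') = upper N c + upper N c' := by
          ext p q
          simp only [upper, of_apply, Matrix.add_apply, Pi.add_apply]
          split_ifs
          · rfl
          · rw [add_zero]
        show J⁻¹ * (upper N (c + c') - (upper N (c + c'))ᵀ) = J⁻¹ * (upper N c - (upper N c)ᵀ) +
          J⁻¹ * (upper N c' - (upper N c')ᵀ)
        rw [h1, transpose_add, ← Matrix.mul_add]
        congr 1
        abel
      map_smul' := by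
        intro a c
        apply Subtype.ext
        have h1 : upper N (a • c) = a • upper N c := by
          ext p q
          simp only [upper, of_apply, Matrix.smul_apply, Pi.smul_apply, smul_eq_mul]
          split_ifs
          · rfl
          · rw [mul_zero]
        show J⁻¹ * (upper N (a • c) - (upper N (a • c))ᵀ) = a • (J⁻¹ * (upper N c - (upper N c)ᵀ))
        rw [h1, transpose_smul, ← smul_sub, Matrix.mul_smul] }
  have hφ : Function.Injective φ := by
    rw [← LinearMap.ker_eq_bot, LinearMap.ker_eq_bot']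
    intro c hc
    have h1 : J⁻¹ * (upper N c - (upper N c)ᵀ) = 0 := congrArg Subtype.val hc
    have h2 : upper N c - (upper N c)ᵀ = 0 := by rw [← hJK (upper N c - (upper N c)ᵀ), h1, Matrix.mul_zero]
    funext x
    obtain ⟨q, p⟩ := x
    have hp : p.val < N := p.2.trans q.2
    have h3 := congrFun (congrFun h2 ⟨p.val, hp⟩) q
    rw [Matrix.sub_apply, transpose_apply, Matrix.zero_apply] at h3
    simp only [upper, of_apply] at h3
    rw [dif_pos p.2, dif_neg (by have := p.2; omega), sub_zero] at h3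
    exact h3
  have h4 := LinearMap.finrank_le_finrank_of_injective hφ
  rwa [Module.finrank_fintype_fun_eq_card, card_lower] at h4

theorem dim_lower' [CharZero F] {J : Matrix (Fin N) (Fin N) F} (hdet : J.det ≠ 0) (hJ : Jᵀ = -J) :
    N * (N + 1) / 2 ≤ Module.finrank F (spSub J) := by
  have hu : IsUnit J.det := isUnit_iff_ne_zero.2 hdet
  have hJK : ∀ M : Matrix (Fin N) (Fin N) F, J * (J⁻¹ * M) = M := fun M => by
    rw [← Matrix.mul_assoc, Matrix.mul_nonsing_inv _ hu, Matrix.one_mul]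
  let φ : ((Σ q : Fin N, Fin (q.val + 1)) → F) →ₗ[F] spSub J :=
    { toFun := fun c => ⟨J⁻¹ * (upper' N c + (upper' N c)ᵀ), by
        refine sp_inv hdet (e := -1) (by rw [neg_one_smul, hJ]) ?_
        rw [neg_one_smul, transpose_add, transpose_transpose, add_comm]⟩
      map_add' := by
        intro c c'
        apply Subtype.ext
        have h1 : upper' N (c + c') = upper' N c + upper' N c' := by
          ext p q
          simp only [upper', of_apply, Matrix.add_apply, Pi.add_apply]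
          split_ifs
          · rfl
          · rw [add_zero]
        show J⁻¹ * (upper' N (c + c') + (upper' N (c + c'))ᵀ) =
          J⁻¹ * (upper' N c + (upper' N c)ᵀ) + J⁻¹ * (upper' N c' + (upper' N c')ᵀ)
        rw [h1, transpose_add, ← Matrix.mul_add]
        congr 1
        abel
      map_smul' := by
        intro a c
        apply Subtype.ext
        have h1 : upper' N (a • c) = a • upper' N c := by
          ext p q
          simp only [upper', of_apply, Matrix.smul_apply, Pi.smul_apply, smul_eq_mul]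
          split_ifs
          · rfl
          · rw [mul_zero]
        show J⁻¹ * (upper' N (a • c) + (upper' N (a • c))ᵀ) = a • (J⁻¹ * (upper' N c + (upper' N c)ᵀ))
        rw [h1, transpose_smul, ← smul_add, Matrix.mul_smul] }
  have hφ : Function.Injective φ := by
    rw [← LinearMap.ker_eq_bot, LinearMap.ker_eq_bot']
    intro c hc
    have h1 : J⁻¹ * (upper' N c + (upper' N c)ᵀ) = 0 := congrArg Subtype.val hc
    have h2 : upper' N c + (upper' N c)ᵀ = 0 := by
      rw [← hJK (upper' N c + (upper' N c)ᵀ), h1, Matrix.mul_zero]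
    funext x
    obtain ⟨q, p⟩ := x
    have hpq : p.val < q.val + 1 := p.2
    have hp : p.val < N := by
      have := q.2
      omega
    have h3 := congrFun (congrFun h2 ⟨p.val, hp⟩) q
    rw [Matrix.add_apply, transpose_apply, Matrix.zero_apply] at h3
    simp only [upper', of_apply] at h3
    rw [dif_pos p.2] at h3
    by_cases h : q.val < p.val + 1
    · have h4 : p.val = q.val := by omega
      have h5 : (⟨⟨p.val, hp⟩, ⟨q.val, h⟩⟩ : Σ q : Fin N, Fin (q.val + 1)) = ⟨q, p⟩ :=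
        Sigma.ext (Fin.ext h4) ((Fin.heq_ext_iff (by
          show p.val + 1 = q.val + 1
          rw [h4])).2 h4.symm)
      rw [dif_pos h, h5, ← two_mul] at h3
      exact (mul_eq_zero.1 h3).resolve_left two_ne_zero
    · rw [dif_neg h, add_zero] at h3
      exact h3
  have h4 := LinearMap.finrank_le_finrank_of_injective hφ
  rwa [Module.finrank_fintype_fun_eq_card, card_lower'] at h4

end dim

section split
variable {F : Type} [Field F] [CharZero F] {ι ι' : Type} [Fintype ι] [DecidableEq ι] [Fintype ι']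
  [DecidableEq ι'] {N : ι → ℕ} {d : ι' → ℕ}

/-- the space of the families of matrices -/
abbrev Fam (F : Type) [Field F] (N : ι → ℕ) (d : ι' → ℕ) : Type :=
  (∀ i, Matrix (Fin (N i)) (Fin (N i)) F) × (∀ s, Matrix (Fin (d s)) (Fin (d s)) F)

/-- the bracket -/
def br (Z W : Fam F N d) : Fam F N d :=
  (fun i => Z.1 i * W.1 i - W.1 i * Z.1 i, fun s => Z.2 s * W.2 s - W.2 s * Z.2 s)

/-- every element of the Lie algebra of one form is a component of an element of `𝔥` all of whose other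
components at the forms and all of whose components at the elements of `F` vanish -/
def Lifts (J : ∀ i, Matrix (Fin (N i)) (Fin (N i)) F) (𝔥 : Submodule F (Fam F N d))
    (S : Finset ι') : Prop :=
  ∀ i X, SpLie (J i) X → ∃ Z ∈ 𝔥, Z.1 i = X ∧ (∀ j, j ≠ i → Z.1 j = 0) ∧ ∀ s ∈ S, Z.2 s = 0

variable {J : ∀ i, Matrix (Fin (N i)) (Fin (N i)) F} {𝔥 : Submodule F (Fam F N d)}

theorem step_small (hJ : ∀ i, IsForm (J i)) (hbr : ∀ Z ∈ 𝔥, ∀ W ∈ 𝔥, br Z W ∈ 𝔥) {S : Finset ι'}
    (h : Lifts J 𝔥 S) {s₀ : ι'} (hs : ∀ i, d s₀ ^ 2 < Module.finrank F (spSub (J i))) :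
    Lifts J 𝔥 (insert s₀ S) := by
  intro i X hX
  let V : Submodule F (Fam F N d) :=
    { carrier := {Z | Z ∈ 𝔥 ∧ SpLie (J i) (Z.1 i) ∧ (∀ j, j ≠ i → Z.1 j = 0) ∧ ∀ s ∈ S, Z.2 s = 0}
      zero_mem' := ⟨𝔥.zero_mem, (spSub (J i)).zero_mem, fun _ _ => rfl, fun _ _ => rfl⟩
      add_mem' := by
        rintro Z W ⟨h1, h2, h3, h4⟩ ⟨h1', h2', h3', h4'⟩
        refine ⟨𝔥.add_mem h1 h1', (spSub (J i)).add_mem h2 h2', fun j hj => ?_, fun s hs => ?_⟩
        · show Z.1 j + W.1 j = 0
          rw [h3 j hj, h3' j hj, add_zero]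
        · show Z.2 s + W.2 s = 0
          rw [h4 s hs, h4' s hs, add_zero]
      smul_mem' := by
        rintro c Z ⟨h1, h2, h3, h4⟩
        refine ⟨𝔥.smul_mem c h1, (spSub (J i)).smul_mem c h2, fun j hj => ?_, fun s hs => ?_⟩
        · show c • Z.1 j = 0
          rw [h3 j hj, smul_zero]
        · show c • Z.2 s = 0
          rw [h4 s hs, smul_zero] }
  let p₀ : Fam F N d →ₗ[F] Matrix (Fin (N i)) (Fin (N i)) F :=
    (LinearMap.proj i).comp (LinearMap.fst F _ _)
  let q₀ : Fam F N d →ₗ[F] Matrix (Fin (d s₀)) (Fin (d s₀)) F :=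
    (LinearMap.proj s₀).comp (LinearMap.snd F _ _)
  let p : V →ₗ[F] Matrix (Fin (N i)) (Fin (N i)) F := p₀.comp V.subtype
  let q : V →ₗ[F] Matrix (Fin (d s₀)) (Fin (d s₀)) F := q₀.comp V.subtype
  have hp : spSub (J i) ≤ LinearMap.range p := by
    intro Y hY
    obtain ⟨Z, hZ, h1, h2, h3⟩ := h i Y hY
    have hZV : Z ∈ V := ⟨hZ, by rw [h1]; exact hY, h2, h3⟩
    exact ⟨⟨Z, hZV⟩, h1⟩
  have hex : ∃ Z : V, q Z = 0 ∧ p Z ≠ 0 := by
    by_contra hcon
    push Not at hcon
    have hle : LinearMap.ker q ≤ LinearMap.ker p := fun Z hZ => hcon Z hZ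
    have h1 := LinearMap.finrank_range_add_finrank_ker p
    have h2 := LinearMap.finrank_range_add_finrank_ker q
    have h3 := Submodule.finrank_mono hle
    have h4 := Submodule.finrank_mono hp
    have h5 := Submodule.finrank_le (LinearMap.range q)
    rw [Module.finrank_matrix, Fintype.card_fin, Module.finrank_self, mul_one] at h5
    have h6 := hs i
    rw [sq] at h6
    omega
  obtain ⟨Z₀, hq₀, hp₀⟩ := hex
  let I : Submodule F (Matrix (Fin (N i)) (Fin (N i)) F) := (LinearMap.ker q).map p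
  have hI : ∀ Y, SpLie (J i) Y → ∀ A ∈ I, Y * A - A * Y ∈ I := by
    rintro Y hY A ⟨Z, hZ, rfl⟩
    obtain ⟨W, hW, h1, h2, h3⟩ := h i Y hY
    have hZV : Z.1 ∈ 𝔥 ∧ SpLie (J i) (Z.1.1 i) ∧ (∀ j, j ≠ i → Z.1.1 j = 0) ∧
      ∀ s ∈ S, Z.1.2 s = 0 := Z.2
    have hZq : Z.1.2 s₀ = 0 := hZ
    have hB : br W Z.1 ∈ V := by
      refine ⟨hbr _ hW _ hZV.1, ?_, fun j hj => ?_, fun s hs => ?_⟩
      · show SpLie (J i) (W.1 i * Z.1.1 i - Z.1.1 i * W.1 i)
        rw [h1]
        exact br_sp hY hZV.2.1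
      · show W.1 j * Z.1.1 j - Z.1.1 j * W.1 j = 0
        rw [h2 j hj, Matrix.zero_mul, Matrix.mul_zero, sub_zero]
      · show W.2 s * Z.1.2 s - Z.1.2 s * W.2 s = 0
        rw [h3 s hs, Matrix.zero_mul, Matrix.mul_zero, sub_zero]
    refine ⟨⟨br W Z.1, hB⟩, ?_, ?_⟩
    · show W.2 s₀ * Z.1.2 s₀ - Z.1.2 s₀ * W.2 s₀ = 0
      rw [hZq, Matrix.zero_mul, Matrix.mul_zero, sub_zero]
    · show W.1 i * Z.1.1 i - Z.1.1 i * W.1 i = Y * Z.1.1 i - Z.1.1 i * Y
      rw [h1]
  have hmem : p Z₀ ∈ I := ⟨Z₀, hq₀, rfl⟩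
  obtain ⟨Z, hZ, hZX⟩ := ideal_all (hJ i) I hI hmem Z₀.2.2.1 hp₀ hX
  have hZV : Z.1 ∈ 𝔥 ∧ SpLie (J i) (Z.1.1 i) ∧ (∀ j, j ≠ i → Z.1.1 j = 0) ∧
    ∀ s ∈ S, Z.1.2 s = 0 := Z.2
  refine ⟨Z.1, hZV.1, hZX, hZV.2.2.1, fun s hs => ?_⟩
  rcases Finset.mem_insert.1 hs with rfl | hs
  · exact hZ
  · exact hZV.2.2.2 s hs

theorem step_comm (hJ : ∀ i, IsForm (J i)) (hbr : ∀ Z ∈ 𝔥, ∀ W ∈ 𝔥, br Z W ∈ 𝔥) {S : Finset ι'}
    (h : Lifts J 𝔥 S) {s₀ : ι'} (hs : ∀ Z ∈ 𝔥, ∀ W ∈ 𝔥, Z.2 s₀ * W.2 s₀ = W.2 s₀ * Z.2 s₀) :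
    Lifts J 𝔥 (insert s₀ S) := by
  intro i X hX
  have hp := perf (hJ i) hX
  unfold brs at hp
  induction hp using Submodule.span_induction with
  | mem Y hY =>
    obtain ⟨A, B, hA, hB, rfl⟩ := hY
    obtain ⟨Z, hZ, h1, h2, h3⟩ := h i A hA
    obtain ⟨W, hW, h1', h2', h3'⟩ := h i B hB
    refine ⟨br Z W, hbr Z hZ W hW, ?_, fun j hj => ?_, fun s hs' => ?_⟩
    · show Z.1 i * W.1 i - W.1 i * Z.1 i = A * B - B * A
      rw [h1, h1']
    · show Z.1 j * W.1 j - W.1 j * Z.1 j = 0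
      rw [h2 j hj, Matrix.zero_mul, Matrix.mul_zero, sub_zero]
    · show Z.2 s * W.2 s - W.2 s * Z.2 s = 0
      rcases Finset.mem_insert.1 hs' with rfl | hs'
      · rw [hs Z hZ W hW, sub_self]
      · rw [h3 s hs', Matrix.zero_mul, Matrix.mul_zero, sub_zero]
  | zero => exact ⟨0, 𝔥.zero_mem, rfl, fun _ _ => rfl, fun _ _ => rfl⟩
  | add A B hA hB ihA ihB =>
    obtain ⟨Z, hZ, h1, h2, h3⟩ := ihA (brs_le (J i) hA)
    obtain ⟨W, hW, h1', h2', h3'⟩ := ihB (brs_le (J i) hB)
    refine ⟨Z + W, 𝔥.add_mem hZ hW, ?_, fun j hj => ?_, fun s hs' => ?_⟩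
    · show Z.1 i + W.1 i = A + B
      rw [h1, h1']
    · show Z.1 j + W.1 j = 0
      rw [h2 j hj, h2' j hj, add_zero]
    · show Z.2 s + W.2 s = 0
      rw [h3 s hs', h3' s hs', add_zero]
  | smul c A hA ihA =>
    obtain ⟨Z, hZ, h1, h2, h3⟩ := ihA (brs_le (J i) hA)
    refine ⟨c • Z, 𝔥.smul_mem c hZ, ?_, fun j hj => ?_, fun s hs' => ?_⟩
    · show c • Z.1 i = c • A
      rw [h1]
    · show c • Z.1 j = 0
      rw [h2 j hj, smul_zero]
    · show c • Z.2 s = 0
      rw [h3 s hs', smul_zero]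

/-- **Small and commutative parts split off.** -/
theorem splits (hJ : ∀ i, IsForm (J i)) (hbr : ∀ Z ∈ 𝔥, ∀ W ∈ 𝔥, br Z W ∈ 𝔥)
    (h0 : Lifts J 𝔥 ∅)
    (hs : ∀ s, (∀ i, d s ^ 2 < Module.finrank F (spSub (J i))) ∨
      ∀ Z ∈ 𝔥, ∀ W ∈ 𝔥, Z.2 s * W.2 s = W.2 s * Z.2 s)
    {X : ∀ i, Matrix (Fin (N i)) (Fin (N i)) F} (hX : ∀ i, SpLie (J i) (X i)) :
    ((X, 0) : Fam F N d) ∈ 𝔥 := by
  have hall : ∀ S : Finset ι', Lifts J 𝔥 S := by
    intro S
    induction S using Finset.induction_on with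
    | empty => exact h0
    | insert s S _ ih =>
      rcases hs s with h | h
      · exact step_small hJ hbr ih h
      · exact step_comm hJ hbr ih h
  have h1 : ∀ i, ((Pi.single i (X i), 0) : Fam F N d) ∈ 𝔥 := by
    intro i
    obtain ⟨Z, hZ, h2, h3, h4⟩ := hall Finset.univ i (X i) (hX i)
    have h5 : ((Pi.single i (X i), 0) : Fam F N d) = Z := by
      refine Prod.ext ?_ ?_
      · funext j
        by_cases hj : j = i
        · subst hj
          show (Pi.single j (X j) : ∀ i, Matrix (Fin (N i)) (Fin (N i)) F) j = Z.1 j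
          rw [Pi.single_eq_same, h2]
        · show (Pi.single i (X i) : ∀ i, Matrix (Fin (N i)) (Fin (N i)) F) j = Z.1 j
          rw [Pi.single_eq_of_ne hj, h3 j hj]
      · funext s
        exact (h4 s (Finset.mem_univ s)).symm
    rw [h5]
    exact hZ
  have h2 : ((X, 0) : Fam F N d) = ∑ i, ((Pi.single i (X i), 0) : Fam F N d) := by
    refine Prod.ext ?_ ?_
    · rw [Prod.fst_sum]
      funext j
      rw [Finset.sum_apply, Finset.sum_eq_single j]
      · show X j = (Pi.single j (X j) : ∀ i, Matrix (Fin (N i)) (Fin (N i)) F) j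
        rw [Pi.single_eq_same]
      · intro i _ hi
        show (Pi.single i (X i) : ∀ i, Matrix (Fin (N i)) (Fin (N i)) F) j = 0
        rw [Pi.single_eq_of_ne (Ne.symm hi)]
      · intro hj
        exact absurd (Finset.mem_univ j) hj
    · rw [Prod.snd_sum]
      exact (Finset.sum_eq_zero fun _ _ => rfl).symm
  rw [h2]
  exact 𝔥.sum_mem fun i _ => h1 i

end split

end Pool.Agent.U190.JS
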