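import Pool.Agent.R932.OP.SForm
import Pool.Agent.R932.PO.Hdg
import Pool.Agent.R932.PO.Fin2

/-!
# Killed tensors of odd degree in a symplectic form vanish
-/

set_option autoImplicit false
set_option linter.unusedSectionVars false
set_option linter.style.haveILetI false

open Matrix Polynomial
open Pool.Agent.Y142.ZO Pool.Agent.Y142.ZI Pool.Agent.Y142.ZS Pool.Agent.R932.PO

namespace Pool.Agent.U190.JS

/-- the numbers `2 b + 1 - N` -/
def oddN (N : ℕ) (b : Fin N) : ℤ := 2 * (b : ℤ) + 1 - N

theorem oddN_rev {N : ℕ} (b : Fin N) : oddN N b.rev = -oddN N b := by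
  unfold oddN
  rw [Fin.val_rev]
  have := b.2
  omega

theorem oddN_odd {N : ℕ} (hN : Even N) (b : Fin N) : Odd (oddN N b) := by
  obtain ⟨r, hr⟩ := hN
  exact ⟨(b : ℤ) - r, by unfold oddN; omega⟩

theorem oddN_inj (N : ℕ) : Function.Injective (oddN N) := by
  intro b c h
  unfold oddN at h
  exact Fin.ext (by omega)

/-- an element of the symplectic Lie algebra with a basis of eigenvectors with odd eigenvalues -/
theorem eigen_basis {F : Type} [Field F] [CharZero F] {N : ℕ} (hN : Even N) (hN0 : 0 < N)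
    {J : Matrix (Fin N) (Fin N) F} (hJ : Jᵀ = -J) (hd : J.det ≠ 0) :
    ∃ (T : Matrix (Fin N) (Fin N) F) (e : Module.Basis (Fin N) F (Fin N → F)) (μ : Fin N → ℤ),
      SpLie J T ∧ (∀ b, T *ᵥ e b = (μ b : F) • e b) ∧ ∀ b, Odd (μ b) := by
  haveI : Nonempty (Fin N) := ⟨⟨0, hN0⟩⟩
  let p : F[X] := ∏ b : Fin N, (X - C ((oddN N b : ℤ) : F))
  have hp : p.Monic := monic_prod_of_monic _ _ fun b _ => monic_X_sub_C _
  have hdeg : p.natDegree = N := by
    rw [natDegree_prod_of_monic _ _ fun b _ => monic_X_sub_C _]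
    simp only [natDegree_X_sub_C, Finset.sum_const, Finset.card_univ, Fintype.card_fin, smul_eq_mul,
      mul_one]
  have hcomp : p.comp (-X) = p := by
    show (∏ b : Fin N, (X - C ((oddN N b : ℤ) : F))).comp (-X) = _
    rw [Polynomial.prod_comp]
    have h1 : ∀ b : Fin N, (X - C ((oddN N b : ℤ) : F)).comp (-X) =
        (-1) * (X - C ((oddN N b.rev : ℤ) : F)) := by
      intro b
      rw [sub_comp, X_comp, C_comp, oddN_rev, Int.cast_neg, C_neg]
      ring
    rw [Finset.prod_congr rfl fun b _ => h1 b, Finset.prod_mul_distrib, Finset.prod_const,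
      Finset.card_univ, Fintype.card_fin, hN.neg_one_pow, one_mul]
    exact Equiv.prod_comp Fin.revPerm fun b => (X - C ((oddN N b : ℤ) : F))
  obtain ⟨T, hT, hTp⟩ := Pool.Agent.R932.OP.sform F N J p hJ hd hp hdeg hcomp
  have hroot : ∀ b : Fin N, Module.End.HasEigenvalue (Matrix.toLin' T) ((oddN N b : ℤ) : F) := by
    intro b
    rw [Module.End.hasEigenvalue_iff_isRoot_charpoly, Matrix.charpoly_toLin', hTp]
    show eval _ (∏ b : Fin N, (X - C ((oddN N b : ℤ) : F))) = 0
    rw [eval_prod]
    exact Finset.prod_eq_zero (Finset.mem_univ b) (by simp)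
  have hvec : ∀ b : Fin N, ∃ x, Module.End.HasEigenvector (Matrix.toLin' T) ((oddN N b : ℤ) : F) x := fun b =>
    (hroot b).exists_hasEigenvector
  choose x hx using hvec
  have hli : LinearIndependent F x := Module.End.eigenvectors_linearIndependent' (Matrix.toLin' T)
    (fun b => ((oddN N b : ℤ) : F)) (fun b c h => oddN_inj N (Int.cast_injective h)) x hx
  refine ⟨T, basisOfLinearIndependentOfCardEqFinrank hli (by simp), oddN N, hT, fun b => ?_,
    oddN_odd hN⟩
  rw [coe_basisOfLinearIndependentOfCardEqFinrank]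
  have h1 := (hx b).apply_eq_smul
  rwa [Matrix.toLin'_apply] at h1

/-- killed tensors of odd degree in a symplectic form vanish -/
theorem killed_odd {F : Type} [Field F] [CharZero F] {ι : Type} {N : ι → ℕ}
    {J : ∀ i, Matrix (Fin (N i)) (Fin (N i)) F} {k : ℕ} {a : Fin k → ι} {i : ι} (hN : 0 < N i)
    (hJ : (J i)ᵀ = -J i) (hd : (J i).det ≠ 0) {s : Finset (Fin k)} (hs : ∀ t, t ∈ s ↔ a t = i)
    (hodd : Odd s.card) {A : (∀ t, Fin (N (a t))) → F} (hA : Killed J a A) : A = 0 := by
  classical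
  obtain ⟨T, e, μ, hT, he, hμ⟩ := eigen_basis (Pool.Agent.R932.OP.even_of_alt hJ hd) hN hJ hd
  let X : ∀ i', Matrix (Fin (N i')) (Fin (N i')) F := Pi.single i T
  have hX : ∀ i', SpLie (J i') (X i') := by
    intro i'
    by_cases h : i' = i
    · subst h
      simp only [X, Pi.single_eq_same]
      exact hT
    · simp only [X, Pi.single_eq_of_ne h]
      unfold SpLie
      simp
  have hfam : ∀ i', ∃ (E : Module.Basis (Fin (N i')) F (Fin (N i') → F)) (ν : Fin (N i') → ℤ),
      (∀ b, X i' *ᵥ E b = (ν b : F) • E b) ∧ (i' = i → ∀ b, Odd (ν b)) ∧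
        (i' ≠ i → ∀ b, ν b = 0) := by
    intro i'
    by_cases h : i' = i
    · subst h
      refine ⟨e, μ, fun b => ?_, fun _ => hμ, fun h => absurd rfl h⟩
      simp only [X, Pi.single_eq_same]
      exact he b
    · refine ⟨Pi.basisFun F _, 0, fun b => ?_, fun h' => absurd h' h, fun _ _ => rfl⟩
      simp only [X, Pi.single_eq_of_ne h, zero_mulVec]
      simp
  choose E ν h1 h2 h3 using hfam
  have hml : mlin A = 0 := by
    refine Module.Basis.ext_multilinear (fun t => E (a t)) fun v => ?_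
    rw [_root_.zero_apply]
    have h4 := hA X hX (fun t => E (a t) (v t))
    have h5 : ∀ t, val A (Function.update (fun t => E (a t) (v t)) t (X (a t) *ᵥ E (a t) (v t))) =
        (ν (a t) (v t) : F) * val A (fun t => E (a t) (v t)) := by
      intro t
      rw [h1, ← mlin_apply, MultilinearMap.map_update_smul, Function.update_eq_self, mlin_apply,
        smul_eq_mul]
    rw [Finset.sum_congr rfl fun t _ => h5 t, ← Finset.sum_mul, ← Int.cast_sum] at h4
    rw [mlin_apply]
    refine (mul_eq_zero.1 h4).resolve_left ?_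
    have h6 : ∑ t, ν (a t) (v t) = ∑ t ∈ s, ν (a t) (v t) := by
      symm
      refine Finset.sum_subset (Finset.subset_univ s) fun t _ ht => ?_
      exact h3 (a t) (fun h => ht ((hs t).2 h)) (v t)
    have h7 : Odd (∑ t ∈ s, ν (a t) (v t)) := by
      have h8 : ∀ t, ∃ c : ℤ, t ∈ s → ν (a t) (v t) = 2 * c + 1 := by
        intro t
        by_cases ht : t ∈ s
        · obtain ⟨c, hc⟩ := h2 (a t) ((hs t).1 ht) (v t)
          exact ⟨c, fun _ => hc⟩
        · exact ⟨0, fun h => absurd h ht⟩
      choose c hc using h8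
      rw [Finset.sum_congr rfl fun t ht => hc t ht, Finset.sum_add_distrib, ← Finset.mul_sum,
        Finset.sum_const, nsmul_eq_mul, mul_one]
      obtain ⟨r, hr⟩ := hodd
      exact ⟨∑ t ∈ s, c t + r, by rw [hr]; push_cast; ring⟩
    rw [h6]
    intro h8
    have h9 : (∑ t ∈ s, ν (a t) (v t)) = 0 := by exact_mod_cast h8
    rw [h9] at h7
    exact absurd h7 (by decide)
  refine val_zero fun v => ?_
  rw [← mlin_apply, hml, _root_.zero_apply]

/-- killed tensors of odd weight vanish -/
theorem killed_odd_weight {F : Type} [Field F] [CharZero F] {ι : Type} {N w : ι → ℕ}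
    {J : ∀ i, Matrix (Fin (N i)) (Fin (N i)) F} (hN : ∀ i, 0 < N i)
    (hJ : ∀ i, (J i)ᵀ = -J i ∨ w i = 0) (hd : ∀ i, (J i).det ≠ 0) {k : ℕ} {a : Fin k → ι}
    (hodd : ¬ Even (∑ t, w (a t))) {A : (∀ t, Fin (N (a t))) → F} (hA : Killed J a A) : A = 0 := by
  classical
  rw [Finset.sum_comp w a] at hodd
  obtain ⟨i, hi⟩ : ∃ i, Odd ((Finset.univ.filter fun t => a t = i).card • w i) := by
    by_contra hcon
    push Not at hcon
    refine hodd (Finset.even_sum _ fun i _ => ?_)
    exact Nat.not_odd_iff_even.1 (hcon i)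
  rw [smul_eq_mul, Nat.odd_mul] at hi
  rcases hJ i with h | h
  · exact killed_odd (hN i) h (hd i) (s := Finset.univ.filter fun t => a t = i)
      (fun t => by simp) hi.1 hA
  · rw [h] at hi
    exact absurd hi.2 (by decide)

end Pool.Agent.U190.JS
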