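import Pool.Agent.U190.JS.Alg
import Pool.Agent.R932.PO.JLie
import Pool.Agent.R932.Tan

/-!
# Joint tangent vectors with an arbitrary family of small or potentially commutative representations
-/

set_option autoImplicit false
set_option linter.unusedSectionVars false
set_option linter.style.haveILetI false

open Matrix Filter Topology
open Pool.Agent.Y142.ZO Pool.Agent.Y142.ZI Pool.Agent.Y142.ZS Pool.Agent.R932.PO

namespace Pool.Agent.U190.JS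

section block
variable {F : Type} [CommRing F] {ι : Type} [Fintype ι] [DecidableEq ι] (N : ι → ℕ)

/-- the total size -/
def tot : ℕ := Fintype.card (Σ i, Fin (N i))

/-- the numbering of the coordinates -/
noncomputable def num : (Σ i, Fin (N i)) ≃ Fin (tot N) := Fintype.equivFin _

/-- the block diagonal matrix -/
noncomputable def blk (A : ∀ i, Matrix (Fin (N i)) (Fin (N i)) F) :
    Matrix (Fin (tot N)) (Fin (tot N)) F :=
  (blockDiagonal' A).submatrix (num N).symm (num N).symm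

variable {N}

theorem blk_one : blk N (1 : ∀ i, Matrix (Fin (N i)) (Fin (N i)) F) = 1 := by
  unfold blk
  rw [blockDiagonal'_one, submatrix_one_equiv]

theorem blk_mul (A B : ∀ i, Matrix (Fin (N i)) (Fin (N i)) F) :
    blk N (A * B) = blk N A * blk N B := by
  unfold blk
  rw [submatrix_mul_equiv, ← blockDiagonal'_mul]
  rfl

theorem blk_sub (A B : ∀ i, Matrix (Fin (N i)) (Fin (N i)) F) :
    blk N (A - B) = blk N A - blk N B := by
  unfold blk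
  rw [blockDiagonal'_sub]
  rfl

theorem blk_smul (c : F) (A : ∀ i, Matrix (Fin (N i)) (Fin (N i)) F) :
    blk N (c • A) = c • blk N A := by
  unfold blk
  rw [blockDiagonal'_smul]
  rfl

theorem blk_apply (A : ∀ i, Matrix (Fin (N i)) (Fin (N i)) F) (i : ι) (p q : Fin (N i)) :
    blk N A (num N ⟨i, p⟩) (num N ⟨i, q⟩) = A i p q := by
  unfold blk
  rw [submatrix_apply, Equiv.symm_apply_apply, Equiv.symm_apply_apply, blockDiagonal'_apply_eq]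

end block

section tan
variable {ℓ : ℕ} [hℓ : Fact ℓ.Prime] {ι ι' : Type} [Fintype ι] [DecidableEq ι] [Fintype ι']
  [DecidableEq ι'] {N : ι → ℕ} {d : ι' → ℕ}
  {G : Type} [Group G] [TopologicalSpace G] [IsTopologicalGroup G] [CompactSpace G]
  {ρ : ∀ i, G →* Matrix (Fin (N i)) (Fin (N i)) ℚ_[ℓ]}
  {α : ∀ s, G →* Matrix (Fin (d s)) (Fin (d s)) ℚ_[ℓ]}

/-- joint tangent vectors of two families of representations -/
def Tan2 (ρ : ∀ i, G →* Matrix (Fin (N i)) (Fin (N i)) ℚ_[ℓ])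
    (α : ∀ s, G →* Matrix (Fin (d s)) (Fin (d s)) ℚ_[ℓ]) (Z : Fam ℚ_[ℓ] N d) : Prop :=
  ∃ σ : ℕ → G, (∀ i, Tendsto (fun n : ℕ => ((ℓ : ℚ_[ℓ]) ^ n)⁻¹ • (ρ i (σ n) - 1)) atTop (𝓝 (Z.1 i))) ∧
    ∀ s, Tendsto (fun n : ℕ => ((ℓ : ℚ_[ℓ]) ^ n)⁻¹ • (α s (σ n) - 1)) atTop (𝓝 (Z.2 s))

/-- the block diagonal representation -/
noncomputable def blkRep (ρ : ∀ i, G →* Matrix (Fin (N i)) (Fin (N i)) ℚ_[ℓ]) :
    G →* Matrix (Fin (tot N)) (Fin (tot N)) ℚ_[ℓ] where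
  toFun g := blk N fun i => ρ i g
  map_one' := by
    have h1 : (fun i => ρ i 1) = (1 : ∀ i, Matrix (Fin (N i)) (Fin (N i)) ℚ_[ℓ]) := by
      funext i
      exact map_one _
    rw [h1, blk_one]
  map_mul' g h := by
    rw [← blk_mul]
    congr 1
    funext i
    exact map_mul _ _ _

theorem cont_blk : Continuous fun A : ∀ i, Matrix (Fin (N i)) (Fin (N i)) ℚ_[ℓ] => blk N A := by
  unfold blk
  exact (Continuous.matrix_blockDiagonal' continuous_id).matrix_submatrix _ _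

theorem blk_dq (n : ℕ) (g : G) : ((ℓ : ℚ_[ℓ]) ^ n)⁻¹ • (blkRep ρ g - 1) =
    blk N (fun i => ((ℓ : ℚ_[ℓ]) ^ n)⁻¹ • (ρ i g - 1)) := by
  have h1 : (fun i => ((ℓ : ℚ_[ℓ]) ^ n)⁻¹ • (ρ i g - 1)) =
      ((ℓ : ℚ_[ℓ]) ^ n)⁻¹ • ((fun i => ρ i g) - (1 : ∀ i, Matrix (Fin (N i)) (Fin (N i)) ℚ_[ℓ])) := by
    funext i
    rfl
  rw [h1, blk_smul, blk_sub, blk_one]
  rfl

theorem blk_tangent {X : ∀ i, Matrix (Fin (N i)) (Fin (N i)) ℚ_[ℓ]} {σ : ℕ → G}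
    (hσ : ∀ i, Tendsto (fun n : ℕ => ((ℓ : ℚ_[ℓ]) ^ n)⁻¹ • (ρ i (σ n) - 1)) atTop (𝓝 (X i))) :
    Tendsto (fun n : ℕ => ((ℓ : ℚ_[ℓ]) ^ n)⁻¹ • (blkRep ρ (σ n) - 1)) atTop (𝓝 (blk N X)) := by
  have h1 : Tendsto (fun n : ℕ => fun i => ((ℓ : ℚ_[ℓ]) ^ n)⁻¹ • (ρ i (σ n) - 1)) atTop (𝓝 X) :=
    tendsto_pi_nhds.2 hσ
  exact ((cont_blk.tendsto X).comp h1).congr fun n => (blk_dq n (σ n)).symm

theorem of_blk_tangent {X : ∀ i, Matrix (Fin (N i)) (Fin (N i)) ℚ_[ℓ]} {σ : ℕ → G}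
    (hσ : Tendsto (fun n : ℕ => ((ℓ : ℚ_[ℓ]) ^ n)⁻¹ • (blkRep ρ (σ n) - 1)) atTop (𝓝 (blk N X)))
    (i : ι) : Tendsto (fun n : ℕ => ((ℓ : ℚ_[ℓ]) ^ n)⁻¹ • (ρ i (σ n) - 1)) atTop (𝓝 (X i)) := by
  refine tendsto_pi_nhds.2 fun p => tendsto_pi_nhds.2 fun q => ?_
  have h3 := (tendsto_pi_nhds.1 ((tendsto_pi_nhds.1 hσ) (num N ⟨i, p⟩))) (num N ⟨i, q⟩)
  rw [blk_apply] at h3
  refine h3.congr fun n => ?_
  rw [blk_dq, blk_apply]

theorem lift (hρ : ∀ i, Continuous (ρ i)) (hα : ∀ s, Continuous (α s))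
    {X : ∀ i, Matrix (Fin (N i)) (Fin (N i)) ℚ_[ℓ]} (hX : JTan ℓ ρ X) :
    ∃ Y, Tan2 ρ α (X, Y) := by
  obtain ⟨σ, hσ⟩ := hX
  -- the family with the block diagonal representation as an additional member
  let M : Option ι' → ℕ := fun x => x.elim (tot N) d
  let R : ∀ x : Option ι', G →* Matrix (Fin (M x)) (Fin (M x)) ℚ_[ℓ] := fun x =>
    match x with
    | none => blkRep ρ
    | some s => α s
  have hR : ∀ x, Continuous (R x) := by
    intro x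
    cases x with
    | none => exact cont_blk.comp (continuous_pi hρ)
    | some s => exact hα s
  have hT : IsTangent ℓ (R none) (blk N X) := ⟨σ, blk_tangent hσ⟩
  obtain ⟨Y, ⟨τ, hτ⟩, hY⟩ := jlift ℓ (Option ι') M G R hR none (blk N X) hT
  refine ⟨fun s => Y (some s), τ, fun i => ?_, fun s => hτ (some s)⟩
  have h2 := hτ none
  rw [hY] at h2
  exact of_blk_tangent h2 i

/-- the condition on an additional representation: it is small or potentially commutative -/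
def Weak (ℓ : ℕ) [Fact ℓ.Prime] (J : ∀ i, Matrix (Fin (N i)) (Fin (N i)) ℚ_[ℓ]) {n : ℕ}
    (α : G →* Matrix (Fin n) (Fin n) ℚ_[ℓ]) : Prop :=
  (∀ i, n ^ 2 < Module.finrank ℚ_[ℓ] (spSub (J i))) ∨
    ∃ U : Subgroup G, IsOpen (U : Set G) ∧ ∀ σ ∈ U, ∀ τ ∈ U, α σ * α τ = α τ * α σ

/-- tangent vectors of potentially commutative representations commute -/
theorem tan_comm {n : ℕ} {α : G →* Matrix (Fin n) (Fin n) ℚ_[ℓ]} (hα : Continuous α)
    {U : Subgroup G} (hU : IsOpen (U : Set G)) (hc : ∀ σ ∈ U, ∀ τ ∈ U, α σ * α τ = α τ * α σ)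
    {X Y : Matrix (Fin n) (Fin n) ℚ_[ℓ]} (hX : IsTangent ℓ α X) (hY : IsTangent ℓ α Y) :
    X * Y = Y * X := by
  haveI : T2Space (Matrix (Fin n) (Fin n) ℚ_[ℓ]) :=
    inferInstanceAs (T2Space (Fin n → Fin n → ℚ_[ℓ]))
  obtain ⟨σ, hσ⟩ := hX
  obtain ⟨τ, hτ⟩ := hY
  have h1 := Pool.Agent.R932.eventually_mem hα hU (Pool.Agent.R932.tendsto_one hσ)
  have h2 := Pool.Agent.R932.eventually_mem hα hU (Pool.Agent.R932.tendsto_one hτ)
  have h3 := hσ.mul hτ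
  have h4 := hτ.mul hσ
  refine tendsto_nhds_unique h3 (h4.congr' ?_)
  filter_upwards [h1, h2] with n hn hn'
  obtain ⟨u, hu, hun⟩ := hn
  obtain ⟨v, hv, hvn⟩ := hn'
  rw [← hun, ← hvn, smul_mul_smul_comm, smul_mul_smul_comm]
  congr 1
  rw [mul_sub, mul_one, sub_mul, one_mul, mul_sub, mul_one, sub_mul, one_mul, hc u hu v hv]
  abel

/-- **If the joint Lie algebra of the first family is full then small and potentially commutative
representations are independent of it.** -/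
theorem indep {J : ∀ i, Matrix (Fin (N i)) (Fin (N i)) ℚ_[ℓ]} (hJ : ∀ i, IsForm (J i))
    (hρ : ∀ i, Continuous (ρ i)) (hα : ∀ s, Continuous (α s))
    (hfull : ∀ X, (∀ i, SpLie (J i) (X i)) → JTan ℓ ρ X) (hw : ∀ s, Weak ℓ J (α s))
    {X : ∀ i, Matrix (Fin (N i)) (Fin (N i)) ℚ_[ℓ]} (hX : ∀ i, SpLie (J i) (X i)) :
    Tan2 ρ α (X, 0) := by
  let M : ι ⊕ ι' → ℕ := Sum.elim N d
  let R : ∀ x : ι ⊕ ι', G →* Matrix (Fin (M x)) (Fin (M x)) ℚ_[ℓ] := fun x =>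
    match x with
    | Sum.inl i => ρ i
    | Sum.inr s => α s
  obtain ⟨𝔤, h𝔤, hbr, -⟩ := jlie ℓ (ι ⊕ ι') M G R
  -- the transported Lie algebra
  let Φ : Fam ℚ_[ℓ] N d →ₗ[ℚ_[ℓ]] (∀ x : ι ⊕ ι', Matrix (Fin (M x)) (Fin (M x)) ℚ_[ℓ]) :=
    { toFun := fun Z x => match x with
        | Sum.inl i => Z.1 i
        | Sum.inr s => Z.2 s
      map_add' := by
        intro Z W
        funext x
        cases x <;> rfl
      map_smul' := by
        intro c Z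
        funext x
        cases x <;> rfl }
  let 𝔥 : Submodule ℚ_[ℓ] (Fam ℚ_[ℓ] N d) := 𝔤.comap Φ
  have h𝔥 : ∀ Z : Fam ℚ_[ℓ] N d, Z ∈ 𝔥 ↔ Tan2 ρ α Z := by
    intro Z
    show Φ Z ∈ 𝔤 ↔ _
    rw [h𝔤]
    constructor
    · rintro ⟨σ, hσ⟩
      exact ⟨σ, fun i => hσ (Sum.inl i), fun s => hσ (Sum.inr s)⟩
    · rintro ⟨σ, h1, h2⟩
      refine ⟨σ, fun x => ?_⟩
      cases x with
      | inl i => exact h1 i
      | inr s => exact h2 s
  have hbr' : ∀ Z ∈ 𝔥, ∀ W ∈ 𝔥, br Z W ∈ 𝔥 := by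
    intro Z hZ W hW
    have h1 := hbr (Φ Z) hZ (Φ W) hW
    show Φ (br Z W) ∈ 𝔤
    have h2 : Φ (br Z W) = fun x => Φ Z x * Φ W x - Φ W x * Φ Z x := by
      funext x
      cases x <;> rfl
    rw [h2]
    exact h1
  have h0 : Lifts J 𝔥 ∅ := by
    intro i Y hY
    have h1 : ∀ j, SpLie (J j) ((Pi.single i Y : ∀ i, Matrix (Fin (N i)) (Fin (N i)) ℚ_[ℓ]) j) := by
      intro j
      by_cases hj : j = i
      · subst hj
        rw [Pi.single_eq_same]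
        exact hY
      · rw [Pi.single_eq_of_ne hj]
        exact (spSub (J j)).zero_mem
    obtain ⟨Z, hZ⟩ := lift hρ hα (hfull _ h1)
    refine ⟨_, (h𝔥 _).2 hZ, ?_, fun j hj => ?_, fun s hs => absurd hs (Finset.notMem_empty s)⟩
    · show (Pi.single i Y : ∀ i, Matrix (Fin (N i)) (Fin (N i)) ℚ_[ℓ]) i = Y
      rw [Pi.single_eq_same]
    · show (Pi.single i Y : ∀ i, Matrix (Fin (N i)) (Fin (N i)) ℚ_[ℓ]) j = 0
      rw [Pi.single_eq_of_ne hj]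
  refine (h𝔥 _).1 (splits hJ hbr' h0 (fun s => ?_) hX)
  rcases hw s with h | ⟨U, hU, hc⟩
  · exact Or.inl h
  · right
    intro Z hZ W hW
    obtain ⟨σ, -, hσ⟩ := (h𝔥 Z).1 hZ
    obtain ⟨τ, -, hτ⟩ := (h𝔥 W).1 hW
    exact tan_comm (hα s) hU hc ⟨σ, hσ s⟩ ⟨τ, hτ s⟩

end tan

end Pool.Agent.U190.JS
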