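import Pool.Agent.U190.JS.Tan
import Pool.Agent.R932.PO.Fin
import Pool.Agent.R932.PO.Ht
import Pool.Agent.R932.PO.Hdg

/-!
# Tate classes on products with an arbitrary family of small or potentially commutative representations
-/

set_option autoImplicit false
set_option linter.unusedSectionVars false
set_option linter.style.haveILetI false

open Matrix Filter Topology
open Pool.Agent.Y142.ZO Pool.Agent.Y142.ZI Pool.Agent.Y142.ZS Pool.Agent.R932.PO

namespace Pool.Agent.U190.JS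

section val2
variable {F : Type} [Field F] {k m : ℕ} {M : Fin k → ℕ} {D : Fin m → ℕ}

/-- the value of the multilinear form in `k + m` vectors with the coefficients `T` -/
def val2 (T : (∀ t, Fin (M t)) → (∀ t, Fin (D t)) → F) (v : ∀ t, Fin (M t) → F)
    (u : ∀ t, Fin (D t) → F) : F :=
  ∑ s, val (fun r => T r s) v * ∏ t, u t (s t)

theorem val2_add (T T' : (∀ t, Fin (M t)) → (∀ t, Fin (D t)) → F) (v : ∀ t, Fin (M t) → F)
    (u : ∀ t, Fin (D t) → F) : val2 (T + T') v u = val2 T v u + val2 T' v u := by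
  unfold val2 val
  rw [← Finset.sum_add_distrib]
  refine Finset.sum_congr rfl fun s _ => ?_
  rw [← add_mul, ← Finset.sum_add_distrib]
  congr 1
  refine Finset.sum_congr rfl fun r _ => ?_
  rw [← add_mul]
  rfl

theorem val2_smul (c : F) (T : (∀ t, Fin (M t)) → (∀ t, Fin (D t)) → F) (v : ∀ t, Fin (M t) → F)
    (u : ∀ t, Fin (D t) → F) : val2 (c • T) v u = c * val2 T v u := by
  unfold val2 val
  rw [Finset.mul_sum]
  refine Finset.sum_congr rfl fun s _ => ?_
  rw [← mul_assoc, Finset.mul_sum]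
  congr 1
  refine Finset.sum_congr rfl fun r _ => ?_
  rw [← mul_assoc]
  rfl

theorem val2_zero (v : ∀ t, Fin (M t) → F) (u : ∀ t, Fin (D t) → F) :
    val2 (0 : (∀ t, Fin (M t)) → (∀ t, Fin (D t)) → F) v u = 0 := by
  unfold val2 val
  refine Finset.sum_eq_zero fun s _ => ?_
  rw [Finset.sum_eq_zero (fun r _ => zero_mul _), zero_mul]

/-- the value of a decomposable form -/
theorem val2_prod (A : (∀ t, Fin (M t)) → F) (B : (∀ t, Fin (D t)) → F) (v : ∀ t, Fin (M t) → F)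
    (u : ∀ t, Fin (D t) → F) : val2 (fun r s => A r * B s) v u = val A v * val B u := by
  unfold val2
  have h1 : ∀ s, val (fun r => A r * B s) v = val A v * B s := by
    intro s
    unfold val
    rw [Finset.sum_mul]
    exact Finset.sum_congr rfl fun r _ => by ring
  unfold val
  rw [Finset.mul_sum]
  refine Finset.sum_congr rfl fun s _ => ?_
  have h2 := h1 s
  unfold val at h2
  rw [h2]
  ring

theorem val2_single (T : (∀ t, Fin (M t)) → (∀ t, Fin (D t)) → F) (v : ∀ t, Fin (M t) → F)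
    (s : ∀ t, Fin (D t)) : val2 T v (fun t => Pi.single (s t) 1) = val (fun r => T r s) v := by
  classical
  unfold val2
  rw [Finset.sum_eq_single s]
  · simp
  · intro s' _ hs
    obtain ⟨t, ht⟩ := Function.ne_iff.1 hs
    rw [Finset.prod_eq_zero (Finset.mem_univ t), mul_zero]
    show (Pi.single (s t) 1 : Fin (D t) → F) (s' t) = 0
    rw [Pi.single_eq_of_ne ht]
  · intro h
    exact absurd (Finset.mem_univ s) h

end val2

section tate
variable {ℓ : ℕ} [hℓ : Fact ℓ.Prime] {ι ι' : Type} [Fintype ι] [DecidableEq ι] [Fintype ι']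
  [DecidableEq ι'] {N w : ι → ℕ} {d : ι' → ℕ}
  {G : Type} [Group G] [TopologicalSpace G] [IsTopologicalGroup G] [CompactSpace G]
  {ρ : ∀ i, G →* Matrix (Fin (N i)) (Fin (N i)) ℚ_[ℓ]}
  {α : ∀ s, G →* Matrix (Fin (d s)) (Fin (d s)) ℚ_[ℓ]} {κ : G →* ℚ_[ℓ]}
  {J : ∀ i, Matrix (Fin (N i)) (Fin (N i)) ℚ_[ℓ]} {k m : ℕ} {a : Fin k → ι} {b : Fin m → ι'}

/-- Tate classes in tensor products of the two families: an open subgroup acts by the `j`-th power of
the character -/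
def IsTate2 (ρ : ∀ i, G →* Matrix (Fin (N i)) (Fin (N i)) ℚ_[ℓ])
    (α : ∀ s, G →* Matrix (Fin (d s)) (Fin (d s)) ℚ_[ℓ]) (κ : G →* ℚ_[ℓ]) {k m : ℕ}
    (a : Fin k → ι) (b : Fin m → ι') (j : ℕ)
    (T : (∀ t, Fin (N (a t))) → (∀ t, Fin (d (b t))) → ℚ_[ℓ]) : Prop :=
  ∃ U : Subgroup G, IsOpen (U : Set G) ∧ ∀ σ ∈ U, ∀ (v : ∀ t, Fin (N (a t)) → ℚ_[ℓ])
    (u : ∀ t, Fin (d (b t)) → ℚ_[ℓ]),
    val2 T (fun t => ρ (a t) σ *ᵥ v t) (fun t => α (b t) σ *ᵥ u t) = κ σ ^ j * val2 T v u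

/-- Tate classes in the tensor products of the second family: an open subgroup acts by the power
`j - j'` of the character -/
def IsTateT (α : ∀ s, G →* Matrix (Fin (d s)) (Fin (d s)) ℚ_[ℓ]) (κ : G →* ℚ_[ℓ]) {m : ℕ}
    (b : Fin m → ι') (j j' : ℕ) (B : (∀ t, Fin (d (b t))) → ℚ_[ℓ]) : Prop :=
  ∃ U : Subgroup G, IsOpen (U : Set G) ∧ ∀ σ ∈ U, ∀ u : ∀ t, Fin (d (b t)) → ℚ_[ℓ],
    κ σ ^ j' * val B (fun t => α (b t) σ *ᵥ u t) = κ σ ^ j * val B u

/-- the derivative of a form in two blocks of variables in the direction of a tangent vector all of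
whose components at the second family vanish -/
theorem killed_of_tate2 (hρ : ∀ i, Continuous (ρ i)) (hα : ∀ s, Continuous (α s))
    (hκ : Continuous κ) {X : ∀ i, Matrix (Fin (N i)) (Fin (N i)) ℚ_[ℓ]}
    (hX : ∃ σ : ℕ → G,
      (∀ i, Tendsto (fun n : ℕ => ((ℓ : ℚ_[ℓ]) ^ n)⁻¹ • (ρ i (σ n) - 1)) atTop (𝓝 (X i))) ∧
      (∀ s, Tendsto (fun n : ℕ => ((ℓ : ℚ_[ℓ]) ^ n)⁻¹ • (α s (σ n) - 1)) atTop (𝓝 0)) ∧
      Tendsto (fun n : ℕ => ((ℓ : ℚ_[ℓ]) ^ n)⁻¹ * (κ (σ n) - 1)) atTop (𝓝 0))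
    {j : ℕ} {T : (∀ t, Fin (N (a t))) → (∀ t, Fin (d (b t))) → ℚ_[ℓ]} (hT : IsTate2 ρ α κ a b j T)
    (s : ∀ t, Fin (d (b t))) (v : ∀ t, Fin (N (a t)) → ℚ_[ℓ]) :
    ∑ t, val (fun r => T r s) (Function.update v t (X (a t) *ᵥ v t)) = 0 := by
  classical
  obtain ⟨σ, h1, h2, h3⟩ := hX
  obtain ⟨U, hU, hT⟩ := hT
  have hℓ1 : ‖(ℓ : ℚ_[ℓ])‖ < 1 := Padic.norm_p_lt_one
  have hp : Tendsto (fun n : ℕ => (ℓ : ℚ_[ℓ]) ^ n) atTop (𝓝 0) :=
    tendsto_pow_atTop_nhds_zero_of_norm_lt_one hℓ1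
  have hp0 : ∀ n : ℕ, (ℓ : ℚ_[ℓ]) ^ n ≠ 0 := fun n => pow_ne_zero _ (by
    exact_mod_cast (Fact.out : ℓ.Prime).ne_zero)
  -- membership in `U`
  haveI : ∀ i, T2Space (Matrix (Fin (N i)) (Fin (N i)) ℚ_[ℓ]) := fun i =>
    inferInstanceAs (T2Space (Fin (N i) → Fin (N i) → ℚ_[ℓ]))
  haveI : ∀ i, T2Space (Matrix (Fin (d i)) (Fin (d i)) ℚ_[ℓ]) := fun i =>
    inferInstanceAs (T2Space (Fin (d i) → Fin (d i) → ℚ_[ℓ]))
  let R : G →* ((∀ i, Matrix (Fin (N i)) (Fin (N i)) ℚ_[ℓ]) ×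
      (∀ s, Matrix (Fin (d s)) (Fin (d s)) ℚ_[ℓ])) × ℚ_[ℓ] :=
    ((MonoidHom.pi ρ).prod (MonoidHom.pi α)).prod κ
  have hR : Continuous R := ((continuous_pi hρ).prodMk (continuous_pi hα)).prodMk hκ
  have hκ1 : Tendsto (fun n => κ (σ n)) atTop (𝓝 1) := by
    have h4 := (hp.mul h3).add_const 1
    rw [zero_mul, zero_add] at h4
    refine h4.congr fun n => ?_
    rw [← mul_assoc, mul_inv_cancel₀ (hp0 n), one_mul, sub_add_cancel]
  have hR1 : Tendsto (fun n => R (σ n)) atTop (𝓝 1) := by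
    refine Tendsto.prodMk_nhds (Tendsto.prodMk_nhds ?_ ?_) hκ1
    · exact tendsto_pi_nhds.2 fun i => Pool.Agent.R932.tendsto_one (h1 i)
    · exact tendsto_pi_nhds.2 fun i => Pool.Agent.R932.tendsto_one (h2 i)
  have hmem := Pool.Agent.R932.eventually_mem hR hU hR1
  have hinv : ∀ᶠ n in atTop, ∀ (v : ∀ t, Fin (N (a t)) → ℚ_[ℓ]) (u : ∀ t, Fin (d (b t)) → ℚ_[ℓ]),
      val2 T (fun t => ρ (a t) (σ n) *ᵥ v t) (fun t => α (b t) (σ n) *ᵥ u t) =
        κ (σ n) ^ j * val2 T v u := by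
    filter_upwards [hmem] with n hn v u
    obtain ⟨g, hg, hgn⟩ := hn
    have e1 : (fun i => ρ i g) = fun i => ρ i (σ n) := congrArg (fun z => z.1.1) hgn
    have e2 : (fun i => α i g) = fun i => α i (σ n) := congrArg (fun z => z.1.2) hgn
    have e3 : κ g = κ (σ n) := congrArg (fun z => z.2) hgn
    have h4 := hT g hg v u
    have e1' : ∀ i, ρ i g = ρ i (σ n) := fun i => congrFun e1 i
    have e2' : ∀ i, α i g = α i (σ n) := fun i => congrFun e2 i
    simp only [e1', e2', e3] at h4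
    exact h4
  -- the limits
  have hαu : ∀ (u : ∀ t, Fin (d (b t)) → ℚ_[ℓ]) (t : Fin m),
      Tendsto (fun n => α (b t) (σ n) *ᵥ u t) atTop (𝓝 (u t)) := by
    intro u t
    have h4 : Continuous fun A : Matrix (Fin (d (b t))) (Fin (d (b t))) ℚ_[ℓ] => A *ᵥ u t :=
      Continuous.matrix_mulVec continuous_id continuous_const
    have h5 := (h4.tendsto 1).comp (Pool.Agent.R932.tendsto_one (h2 (b t)))
    rw [one_mulVec] at h5
    exact h5
  have hfirst : ∀ (v : ∀ t, Fin (N (a t)) → ℚ_[ℓ]) (u : ∀ t, Fin (d (b t)) → ℚ_[ℓ]),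
      Tendsto (fun n : ℕ => ((ℓ : ℚ_[ℓ]) ^ n)⁻¹ *
        (val2 T (fun t => ρ (a t) (σ n) *ᵥ v t) (fun t => α (b t) (σ n) *ᵥ u t) -
          val2 T v (fun t => α (b t) (σ n) *ᵥ u t))) atTop
        (𝓝 (∑ s, (∑ t, val (fun r => T r s) (Function.update v t (X (a t) *ᵥ v t))) *
          ∏ t, u t (s t))) := by
    intro v u
    have h4 : ∀ n : ℕ, ((ℓ : ℚ_[ℓ]) ^ n)⁻¹ *
        (val2 T (fun t => ρ (a t) (σ n) *ᵥ v t) (fun t => α (b t) (σ n) *ᵥ u t) -
          val2 T v (fun t => α (b t) (σ n) *ᵥ u t)) =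
        ∑ s, (((ℓ : ℚ_[ℓ]) ^ n)⁻¹ * (mlin (fun r => T r s) (fun t => ρ (a t) (σ n) *ᵥ v t) -
          mlin (fun r => T r s) v)) * ∏ t, (α (b t) (σ n) *ᵥ u t) (s t) := by
      intro n
      unfold val2
      rw [← Finset.sum_sub_distrib, Finset.mul_sum]
      refine Finset.sum_congr rfl fun s _ => ?_
      rw [mlin_apply, mlin_apply]
      ring
    refine Tendsto.congr (fun n => (h4 n).symm) (tendsto_finsetSum _ fun s _ => ?_)
    refine Tendsto.mul ?_ ?_
    · have h5 := deriv_mult (mlin (fun r => T r s)) hp0 hp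
        (g := fun n t => ρ (a t) (σ n)) (fun t => h1 (a t)) v
      simpa only [mlin_apply] using h5
    · refine tendsto_finsetProd _ fun t _ => ?_
      exact (tendsto_pi_nhds.1 (hαu u t)) (s t)
  have hsecond : ∀ (v : ∀ t, Fin (N (a t)) → ℚ_[ℓ]) (u : ∀ t, Fin (d (b t)) → ℚ_[ℓ]),
      Tendsto (fun n : ℕ => ((ℓ : ℚ_[ℓ]) ^ n)⁻¹ *
        (val2 T v (fun t => α (b t) (σ n) *ᵥ u t) - val2 T v u)) atTop (𝓝 0) := by
    intro v u
    have h5 := deriv_mult (mlin (fun s => val (fun r => T r s) v)) hp0 hp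
      (g := fun n t => α (b t) (σ n)) (X := fun _ => 0) (fun t => h2 (b t)) u
    have h6 : ∑ t, (mlin (fun s => val (fun r => T r s) v))
        (Function.update u t ((0 : Matrix (Fin (d (b t))) (Fin (d (b t))) ℚ_[ℓ]) *ᵥ u t)) = 0 := by
      refine Finset.sum_eq_zero fun t _ => ?_
      rw [zero_mulVec]
      exact MultilinearMap.map_coord_zero _ t (by rw [Function.update_self])
    rw [h6] at h5
    refine h5.congr fun n => ?_
    rw [mlin_apply, mlin_apply]
    rfl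
  have hthird : ∀ (v : ∀ t, Fin (N (a t)) → ℚ_[ℓ]) (u : ∀ t, Fin (d (b t)) → ℚ_[ℓ]),
      Tendsto (fun n : ℕ => ((ℓ : ℚ_[ℓ]) ^ n)⁻¹ * (κ (σ n) ^ j * val2 T v u - val2 T v u)) atTop
        (𝓝 0) := by
    intro v u
    have h4 : Tendsto (fun n : ℕ => (∑ i ∈ Finset.range j, κ (σ n) ^ i) *
        (((ℓ : ℚ_[ℓ]) ^ n)⁻¹ * (κ (σ n) - 1)) * val2 T v u) atTop
        (𝓝 ((∑ i ∈ Finset.range j, (1 : ℚ_[ℓ]) ^ i) * 0 * val2 T v u)) :=
      ((tendsto_finsetSum _ fun i _ => hκ1.pow i).mul h3).mul_const _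
    rw [mul_zero, zero_mul] at h4
    refine h4.congr fun n => ?_
    have h5 := geom_sum_mul (κ (σ n)) j
    linear_combination (((ℓ : ℚ_[ℓ]) ^ n)⁻¹ * val2 T v u) * h5
  have hzero : ∀ (v : ∀ t, Fin (N (a t)) → ℚ_[ℓ]) (u : ∀ t, Fin (d (b t)) → ℚ_[ℓ]),
      ∑ s, (∑ t, val (fun r => T r s) (Function.update v t (X (a t) *ᵥ v t))) *
        ∏ t, u t (s t) = 0 := by
    intro v u
    have h4 := (hfirst v u).add (hsecond v u)
    rw [add_zero] at h4
    refine tendsto_nhds_unique (h4.congr' ?_) (hthird v u)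
    filter_upwards [hinv] with n hn
    rw [← hn v u]
    ring
  have h4 := hzero v (fun t => Pi.single (s t) 1)
  rw [Finset.sum_eq_single s] at h4
  · simpa using h4
  · intro s' _ hs
    obtain ⟨t, ht⟩ := Function.ne_iff.1 hs
    rw [Finset.prod_eq_zero (Finset.mem_univ t), mul_zero]
    show (Pi.single (s t) 1 : Fin (d (b t)) → ℚ_[ℓ]) (s' t) = 0
    rw [Pi.single_eq_of_ne ht]
  · intro h
    exact absurd (Finset.mem_univ s) h

/-- the character as a representation by matrices -/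
noncomputable def chi (κ : G →* ℚ_[ℓ]) : G →* Matrix (Fin 1) (Fin 1) ℚ_[ℓ] where
  toFun g := Matrix.of fun _ _ => κ g
  map_one' := by
    ext p q
    rw [Subsingleton.elim p q, one_apply_eq, of_apply, map_one]
  map_mul' g h := by
    ext p q
    rw [mul_apply, Fin.sum_univ_one, of_apply, of_apply, of_apply, map_mul]

/-- the components of a Tate class are killed by the Lie algebra of the forms -/
theorem killed_comp (hJ : ∀ i, IsForm (J i)) (hρ : ∀ i, Continuous (ρ i))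
    (hα : ∀ s, Continuous (α s)) (hκ : Continuous κ)
    (hfull : ∀ X, (∀ i, SpLie (J i) (X i)) → JTan ℓ ρ X) (hweak : ∀ s, Weak ℓ J (α s))
    {j : ℕ} {T : (∀ t, Fin (N (a t))) → (∀ t, Fin (d (b t))) → ℚ_[ℓ]} (hT : IsTate2 ρ α κ a b j T)
    (s : ∀ t, Fin (d (b t))) : Killed J a (fun r => T r s) := by
  intro X hX v
  let d' : Option ι' → ℕ := fun x => x.elim 1 d
  let α' : ∀ x : Option ι', G →* Matrix (Fin (d' x)) (Fin (d' x)) ℚ_[ℓ] := fun x =>
    match x with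
    | none => chi κ
    | some s => α s
  have hchi : Continuous (chi κ) :=
    continuous_pi fun _ => continuous_pi fun _ => hκ
  have hα' : ∀ x, Continuous (α' x) := by
    intro x
    cases x with
    | none => exact hchi
    | some s => exact hα s
  have hw' : ∀ x, Weak ℓ J (α' x) := by
    intro x
    cases x with
    | none =>
      refine Or.inr ⟨⊤, isOpen_univ, fun σ _ τ _ => ?_⟩
      show chi κ σ * chi κ τ = chi κ τ * chi κ σ
      rw [← map_mul, ← map_mul]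
      ext p q
      show κ (σ * τ) = κ (τ * σ)
      rw [map_mul, map_mul, mul_comm]
    | some s => exact hweak s
  obtain ⟨σ, h1, h2⟩ := indep hJ hρ hα' hfull hw' hX
  refine killed_of_tate2 hρ hα hκ ⟨σ, h1, fun s => h2 (some s), ?_⟩ hT s v
  have h2' : Tendsto (fun n : ℕ => ((ℓ : ℚ_[ℓ]) ^ n)⁻¹ • (chi κ (σ n) - 1)) atTop
      (𝓝 (0 : Matrix (Fin 1) (Fin 1) ℚ_[ℓ])) := h2 none
  have h3 := (tendsto_pi_nhds.1 ((tendsto_pi_nhds.1 h2') 0)) 0
  refine h3.congr fun n => ?_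
  show ((ℓ : ℚ_[ℓ]) ^ n)⁻¹ • (κ (σ n) - (1 : Matrix (Fin 1) (Fin 1) ℚ_[ℓ]) 0 0) = _
  rw [one_apply_eq, smul_eq_mul]

/-- the killed tensors as a subspace -/
def killedSub (J : ∀ i, Matrix (Fin (N i)) (Fin (N i)) ℚ_[ℓ]) (a : Fin k → ι) :
    Submodule ℚ_[ℓ] ((∀ t, Fin (N (a t))) → ℚ_[ℓ]) where
  carrier := {A | Killed J a A}
  zero_mem' := by
    show Killed J a 0
    rw [killed_iff]
    intro X _
    funext r
    unfold dT
    simp
  add_mem' := by
    intro A B hA hB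
    show Killed J a (A + B)
    have hA' : Killed J a A := hA
    have hB' : Killed J a B := hB
    rw [killed_iff] at hA' hB' ⊢
    intro X hX
    rw [dT_add, hA' X hX, hB' X hX, add_zero]
  smul_mem' := by
    intro c A hA
    show Killed J a (c • A)
    have hA' : Killed J a A := hA
    rw [killed_iff] at hA' ⊢
    intro X hX
    rw [dT_smul, hA' X hX, smul_zero]

theorem val_sum {F : Type} [Field F] {M : Fin k → ℕ} {x : Type} (S : Finset x) (c : x → F)
    (A : x → (∀ t, Fin (M t)) → F) (v : ∀ t, Fin (M t) → F) :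
    val (∑ i ∈ S, c i • A i) v = ∑ i ∈ S, c i * val (A i) v := by
  unfold val
  simp only [Finset.sum_apply, Pi.smul_apply, smul_eq_mul, Finset.sum_mul, Finset.mul_sum]
  rw [Finset.sum_comm]
  refine Finset.sum_congr rfl fun i _ => Finset.sum_congr rfl fun r _ => ?_
  ring

/-- **The Tate classes of a product are the products of killed tensors and Tate classes.** -/
theorem tate2_iff (hJ : ∀ i, IsForm (J i)) (hN : ∀ i, 0 < N i) (hρ : ∀ i, Continuous (ρ i))
    (hα : ∀ s, Continuous (α s)) (hκ : Continuous κ)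
    (hmult : ∀ i g, Sim (J i) (ρ i g) (κ g ^ w i))
    (hfull : ∀ X, (∀ i, SpLie (J i) (X i)) → JTan ℓ ρ X) (hweak : ∀ s, Weak ℓ J (α s))
    {j j' : ℕ} (hj' : ∑ t, w (a t) = 2 * j')
    (T : (∀ t, Fin (N (a t))) → (∀ t, Fin (d (b t))) → ℚ_[ℓ]) :
    IsTate2 ρ α κ a b j T ↔
      T ∈ Submodule.span ℚ_[ℓ] {T' | ∃ A B, Killed J a A ∧ IsTateT α κ b j j' B ∧
        T' = fun r s => A r * B s} := by
  constructor
  · intro hT
    have hk := killed_comp hJ hρ hα hκ hfull hweak hT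
    obtain ⟨U, hU, hT⟩ := hT
    let K := Module.finBasis ℚ_[ℓ] (killedSub J a)
    let n := Module.finrank ℚ_[ℓ] (killedSub J a)
    let c : Fin n → (∀ t, Fin (d (b t))) → ℚ_[ℓ] := fun x s => K.repr ⟨fun r => T r s, hk s⟩ x
    have hsum : ∀ s, (fun r => T r s) = ∑ x, c x s • (K x : (∀ t, Fin (N (a t))) → ℚ_[ℓ]) := by
      intro s
      have h1 := congrArg Subtype.val (K.sum_repr ⟨fun r => T r s, hk s⟩)
      rw [AddSubmonoidClass.coe_finsetSum] at h1
      exact h1.symm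
    have hT2 : T = ∑ x, fun r s => (K x : (∀ t, Fin (N (a t))) → ℚ_[ℓ]) r * c x s := by
      funext r s
      have h1 := congrFun (hsum s) r
      rw [Finset.sum_apply] at h1
      rw [Finset.sum_apply, Finset.sum_apply, h1]
      refine Finset.sum_congr rfl fun x _ => ?_
      rw [Pi.smul_apply, smul_eq_mul, mul_comm]
    have hval : ∀ v u, val2 T v u = ∑ x, val (K x : (∀ t, Fin (N (a t))) → ℚ_[ℓ]) v *
        val (c x) u := by
      intro v u
      have h1 : ∀ S : Finset (Fin n), val2 (∑ x ∈ S, fun r s =>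
          (K x : (∀ t, Fin (N (a t))) → ℚ_[ℓ]) r * c x s) v u =
          ∑ x ∈ S, val (K x : (∀ t, Fin (N (a t))) → ℚ_[ℓ]) v * val (c x) u := by
        intro S
        classical
        induction S using Finset.induction_on with
        | empty => rw [Finset.sum_empty, Finset.sum_empty, val2_zero]
        | insert x S hx ih =>
          rw [Finset.sum_insert hx, Finset.sum_insert hx, val2_add, ih, val2_prod]
      conv_lhs => rw [hT2]
      exact h1 _
    have hU' : ∀ x, ∃ V : Subgroup G, IsOpen (V : Set G) ∧ ∀ σ ∈ V,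
        ∀ v : ∀ t, Fin (N (a t)) → ℚ_[ℓ],
        val (K x : (∀ t, Fin (N (a t))) → ℚ_[ℓ]) (fun t => ρ (a t) σ *ᵥ v t) =
          κ σ ^ j' * val (K x : (∀ t, Fin (N (a t))) → ℚ_[ℓ]) v := fun x =>
      ht jlift ℓ ι N G ρ hρ J hJ hN κ hκ w hmult k a j' hj' _ (K x).2
    choose V hVo hV using hU'
    have hc : ∀ x, IsTateT α κ b j j' (c x) := by
      refine fun x => ⟨U ⊓ ⨅ x, V x, ?_, ?_⟩
      · rw [Subgroup.coe_inf, Subgroup.coe_iInf]
        exact hU.inter (isOpen_iInter_of_finite hVo)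
      · rintro σ ⟨hσU, hσV⟩ u
        have hσV' : ∀ x, σ ∈ V x := fun x => Subgroup.mem_iInf.1 hσV x
        have h1 : ∀ v : ∀ t, Fin (N (a t)) → ℚ_[ℓ],
            val (∑ x, (κ σ ^ j' * val (c x) (fun t => α (b t) σ *ᵥ u t) - κ σ ^ j * val (c x) u) •
              (K x : (∀ t, Fin (N (a t))) → ℚ_[ℓ])) v = 0 := by
          intro v
          rw [val_sum]
          have h2 := hT σ hσU v u
          rw [hval, hval, Finset.mul_sum, ← sub_eq_zero, ← Finset.sum_sub_distrib] at h2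
          rw [← h2]
          refine Finset.sum_congr rfl fun x _ => ?_
          rw [hV x σ (hσV' x) v]
          ring
        have h2 := val_zero h1
        have h3 : ∑ x, (κ σ ^ j' * val (c x) (fun t => α (b t) σ *ᵥ u t) -
            κ σ ^ j * val (c x) u) • K x = 0 := by
          apply Subtype.ext
          rw [AddSubmonoidClass.coe_finsetSum]
          exact h2
        have h4 := (Fintype.linearIndependent_iff.1 K.linearIndependent) _ h3 x
        exact sub_eq_zero.1 h4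
    rw [hT2]
    exact Submodule.sum_mem _ fun x _ => Submodule.subset_span ⟨_, _, (K x).2, hc x, rfl⟩
  · intro hT
    induction hT using Submodule.span_induction with
    | mem T hT =>
      obtain ⟨A, B, hA, ⟨U, hU, hB⟩, rfl⟩ := hT
      obtain ⟨V, hV, hA'⟩ := ht jlift ℓ ι N G ρ hρ J hJ hN κ hκ w hmult k a j' hj' A hA
      refine ⟨U ⊓ V, hU.inter hV, ?_⟩
      rintro σ ⟨hσU, hσV⟩ v u
      rw [val2_prod, val2_prod, hA' σ hσV v]
      have h1 := hB σ hσU u
      linear_combination (val A v) * h1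
    | zero => exact ⟨⊤, isOpen_univ, fun σ _ v u => by rw [val2_zero, val2_zero, mul_zero]⟩
    | add T T' _ _ hT hT' =>
      obtain ⟨U, hU, h1⟩ := hT
      obtain ⟨V, hV, h2⟩ := hT'
      refine ⟨U ⊓ V, hU.inter hV, ?_⟩
      rintro σ ⟨hσU, hσV⟩ v u
      rw [val2_add, val2_add, h1 σ hσU, h2 σ hσV, mul_add]
    | smul c T _ hT =>
      obtain ⟨U, hU, h1⟩ := hT
      refine ⟨U, hU, fun σ hσ v u => ?_⟩
      rw [val2_smul, val2_smul, h1 σ hσ]
      ring

end tate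

end Pool.Agent.U190.JS
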