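import Pool.Agent.U190.JS.Full
import Pool.Agent.U190.JS.Two
import Pool.Agent.U190.JS.Odd

/-!
# Tate classes on products with arbitrary small or potentially commutative representations: the main theorem
-/

set_option autoImplicit false
set_option linter.unusedSectionVars false
set_option linter.style.haveILetI false

open Matrix Polynomial Filter Topology NumberField IsDedekindDomain
open Pool.Agent.Y142.ZO Pool.Agent.Y142.ZI Pool.Agent.Y142.ZS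
open Pool.Agent.R932.OP Pool.Agent.R932.EV Pool.Agent.R932.PO

namespace Pool.Agent.U190.JS

/-- the square of `n` is smaller than the dimension of the Lie algebra of the form -/
def Small {N : ℕ} (J : Matrix (Fin N) (Fin N) ℚ) (n : ℕ) : Prop :=
  2 * n ^ 2 < N * (N - 1) ∨ (Jᵀ = -J ∧ 2 * n ^ 2 < N * (N + 1))

theorem small_rank {N : ℕ} {J : Matrix (Fin N) (Fin N) ℚ} (hJ : Jᵀ = J ∨ Jᵀ = -J) (hd : J.det ≠ 0)
    {n : ℕ} (h : Small J n) (ℓ : ℕ) [Fact ℓ.Prime] :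
    n ^ 2 < Module.finrank ℚ_[ℓ] (spSub (J.map (algebraMap ℚ ℚ_[ℓ]))) := by
  have hd' : (J.map (algebraMap ℚ ℚ_[ℓ])).det ≠ 0 := det_map_ne (algebraMap ℚ ℚ_[ℓ]) hd
  have h1 : Even (N * (N - 1)) := Nat.even_mul_pred_self N
  have h2 : Even (N * (N + 1)) := Nat.even_mul_succ_self N
  obtain ⟨c, hc⟩ := h1
  obtain ⟨e, he⟩ := h2
  have h3 : N * (N - 1) ≤ N * (N + 1) := Nat.mul_le_mul_left N (by omega)
  by_cases halt : Jᵀ = -J
  · have h4 := dim_lower' hd' (J := J.map (algebraMap ℚ ℚ_[ℓ])) (by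
      rw [← transpose_map, halt]
      ext p q
      simp)
    have h5 : 2 * n ^ 2 < N * (N + 1) := by
      rcases h with h | h
      · omega
      · exact h.2
    omega
  · have h4 := dim_lower hd' (J := J.map (algebraMap ℚ ℚ_[ℓ])) (by
      rw [← transpose_map, hJ.resolve_right halt])
    have h5 : 2 * n ^ 2 < N * (N - 1) := by
      rcases h with h | h
      · exact h
      · exact absurd h.1 halt
    omega

section tate
variable {ℓ : ℕ} [hℓ : Fact ℓ.Prime] {ι ι' : Type} [Fintype ι] [DecidableEq ι] [Fintype ι']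
  [DecidableEq ι'] {N w : ι → ℕ} {d : ι' → ℕ}
  {G : Type} [Group G] [TopologicalSpace G] [IsTopologicalGroup G] [CompactSpace G]
  {ρ : ∀ i, G →* Matrix (Fin (N i)) (Fin (N i)) ℚ_[ℓ]}
  {α : ∀ s, G →* Matrix (Fin (d s)) (Fin (d s)) ℚ_[ℓ]} {κ : G →* ℚ_[ℓ]}
  {J : ∀ i, Matrix (Fin (N i)) (Fin (N i)) ℚ} {k m : ℕ} {a : Fin k → ι} {b : Fin m → ι'}

/-- the product of a tensor over `ℚ` and a tensor over `ℚ_ℓ` -/
noncomputable def prodT {k m : ℕ} {M : Fin k → ℕ} {D : Fin m → ℕ} (ℓ : ℕ) [Fact ℓ.Prime]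
    (A : (∀ t, Fin (M t)) → ℚ) (B : (∀ t, Fin (D t)) → ℚ_[ℓ]) :
    (∀ t, Fin (M t)) → (∀ t, Fin (D t)) → ℚ_[ℓ] :=
  fun r s => (A r : ℚ_[ℓ]) * B s

/-- **The Tate classes of a product are combinations of products of a rational killed tensor and a Tate
class.** -/
theorem tate2_rat (hJ : ∀ i, IsForm ((J i).map (algebraMap ℚ ℚ_[ℓ]))) (hN : ∀ i, 0 < N i)
    (hw : ∀ i, (J i)ᵀ = -J i ∨ w i = 0) (hdet : ∀ i, (J i).det ≠ 0)
    (hρ : ∀ i, Continuous (ρ i)) (hα : ∀ s, Continuous (α s)) (hκ : Continuous κ)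
    (hmult : ∀ i g, Sim ((J i).map (algebraMap ℚ ℚ_[ℓ])) (ρ i g) (κ g ^ w i))
    (hfull : ∀ X, (∀ i, SpLie ((J i).map (algebraMap ℚ ℚ_[ℓ])) (X i)) → JTan ℓ ρ X)
    (hweak : ∀ s, Weak ℓ (fun i => (J i).map (algebraMap ℚ ℚ_[ℓ])) (α s)) {j : ℕ}
    (T : (∀ t, Fin (N (a t))) → (∀ t, Fin (d (b t))) → ℚ_[ℓ]) :
    IsTate2 ρ α κ a b j T ↔
      T ∈ Submodule.span ℚ_[ℓ] {T' | ∃ (A : (∀ t, Fin (N (a t))) → ℚ)
        (B : (∀ t, Fin (d (b t))) → ℚ_[ℓ]) (j' : ℕ), Killed J a A ∧ ∑ t, w (a t) = 2 * j' ∧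
        IsTateT α κ b j j' B ∧ T' = prodT ℓ A B} := by
  by_cases heven : Even (∑ t, w (a t))
  · obtain ⟨j', hj'⟩ := heven
    have hj2 : ∑ t, w (a t) = 2 * j' := by rw [hj', two_mul]
    rw [tate2_iff (J := fun i => (J i).map (algebraMap ℚ ℚ_[ℓ])) hJ hN hρ hα hκ hmult hfull hweak hj2]
    constructor
    · refine fun h => (Submodule.span_le.2 ?_) h
      rintro T' ⟨A, B, hA, hB, rfl⟩
      rw [killed_span] at hA
      show (fun r s => A r * B s) ∈ Submodule.span _ _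
      induction hA using Submodule.span_induction with
      | mem A hA =>
        obtain ⟨A₀, hA₀, rfl⟩ := hA
        refine Submodule.subset_span ⟨A₀, B, j', hA₀, hj2, hB, ?_⟩
        funext r s
        unfold prodT
        show algebraMap ℚ ℚ_[ℓ] (A₀ r) * B s = _
        rw [eq_ratCast]
      | zero =>
        convert Submodule.zero_mem _ using 1
        funext r s
        simp
      | add A A' _ _ h1 h2 =>
        convert Submodule.add_mem _ h1 h2 using 1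
        funext r s
        simp [add_mul]
      | smul c A _ h1 =>
        convert Submodule.smul_mem _ c h1 using 1
        funext r s
        simp [mul_assoc]
    · refine fun h => Submodule.span_mono ?_ h
      rintro T' ⟨A, B, j'', hA, hj'', hB, rfl⟩
      have h1 : j'' = j' := by omega
      subst h1
      refine ⟨fun r => algebraMap ℚ ℚ_[ℓ] (A r), B, killed_up hA, hB, ?_⟩
      funext r s
      unfold prodT
      show _ = algebraMap ℚ ℚ_[ℓ] (A r) * B s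
      rw [eq_ratCast]
  · constructor
    · intro hT
      have hk := killed_comp hJ hρ hα hκ hfull hweak hT
      have h0 : T = 0 := by
        funext r s
        have h1 := killed_odd_weight (J := fun i => (J i).map (algebraMap ℚ ℚ_[ℓ])) hN (w := w)
          (fun i => ?_) (fun i => (hJ i).2) heven (hk s)
        · exact congrFun h1 r
        · rcases hw i with h | h
          · left
            rw [← transpose_map, h]
            ext p q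
            simp
          · exact Or.inr h
      rw [h0]
      exact Submodule.zero_mem _
    · intro hT
      have h1 : {T' | ∃ (A : (∀ t, Fin (N (a t))) → ℚ)
          (B : (∀ t, Fin (d (b t))) → ℚ_[ℓ]) (j' : ℕ), Killed J a A ∧ ∑ t, w (a t) = 2 * j' ∧
          IsTateT α κ b j j' B ∧ T' = prodT ℓ A B} = ∅ := by
        ext T'
        simp only [Set.mem_setOf_eq, Set.mem_empty_iff_false, iff_false]
        rintro ⟨A, B, j', -, h, -⟩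
        exact heven ⟨j', by rw [h, two_mul]⟩
      rw [h1, Submodule.span_empty, Submodule.mem_bot] at hT
      subst hT
      exact ⟨⊤, isOpen_univ, fun σ _ v u => by rw [val2_zero, val2_zero, mul_zero]⟩

end tate

section
variable {K : Type} [Field K] [NumberField K] {ι : Type} [Fintype ι] [DecidableEq ι] {N w : ι → ℕ}
  {S : Set (HeightOneSpectrum (𝓞 K))} {P : ι → HeightOneSpectrum (𝓞 K) → ℚ[X]} {kd : ι → Kind}

/-- the joint Lie algebras are full, if they are full for one prime -/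
theorem full_of_one (hS : S.Finite) (J : ∀ i, Matrix (Fin (N i)) (Fin (N i)) ℚ)
    (hfit : ∀ i, Fits (kd i) (J i)) (hdet : ∀ i, (J i).det ≠ 0) (hw : ∀ i, (J i)ᵀ = J i → w i = 0)
    (κ : ∀ (ℓ : ℕ) [Fact ℓ.Prime], GK K →* ℚ_[ℓ])
    (hκ : ∀ (ℓ : ℕ) [Fact ℓ.Prime], ∀ v ∉ S, (ℓ : 𝓞 K) ∉ v.asIdeal → ∀ σ : GK K, IsFrobenius v σ →
      κ ℓ σ⁻¹ = (Ideal.absNorm v.asIdeal : ℚ_[ℓ]))
    (ρ : ∀ (i : ι) (ℓ : ℕ) [Fact ℓ.Prime], GK K →* Matrix (Fin (N i)) (Fin (N i)) ℚ_[ℓ])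
    (hρc : ∀ (i : ι) (ℓ : ℕ) [Fact ℓ.Prime], Continuous (ρ i ℓ))
    (hmult : ∀ (i : ι) (ℓ : ℕ) [Fact ℓ.Prime] (g : GK K),
      Sim (JL J ℓ i) (ρ i ℓ g) (κ ℓ g ^ w i))
    (hfrob : ∀ (i : ι) (ℓ : ℕ) [Fact ℓ.Prime], ∀ v ∉ S, (ℓ : 𝓞 K) ∉ v.asIdeal → ∀ σ : GK K,
      IsFrobenius v σ → (ρ i ℓ σ⁻¹).charpoly = (P i v).map (algebraMap ℚ ℚ_[ℓ]))
    (ℓ₀ : ℕ) [hℓ₀ : Fact ℓ₀.Prime] (hal : ∀ i, Allows (kd i) (N i) ℓ₀ (JL J ℓ₀ i))
    (hfull : ∀ X, (∀ i, SpLie (JL J ℓ₀ i) (X i)) → JTan ℓ₀ (fun i => ρ i ℓ₀) X) :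
    Y142.ZI.DensityZero {ℓ | ∃ _ : Fact ℓ.Prime,
      ¬ ∀ X, (∀ i, SpLie (JL J ℓ i) (X i)) → JTan ℓ (fun i => ρ i ℓ) X} ∧
    ∀ (ℓ : ℕ) [Fact ℓ.Prime], (∀ i, SS (ρ i ℓ)) → (∀ i, SC (ρ i ℓ)) →
      ∀ X, (∀ i, SpLie (JL J ℓ i) (X i)) → JTan ℓ (fun i => ρ i ℓ) X := by
  have hdetL : ∀ (ℓ : ℕ) [Fact ℓ.Prime] (i : ι), (JL J ℓ i).det ≠ 0 := fun ℓ _ i =>
    det_map_ne (algebraMap ℚ ℚ_[ℓ]) (hdet i)
  have hfitL : ∀ (ℓ : ℕ) [Fact ℓ.Prime] (i : ι), Fits (kd i) (JL J ℓ i) := fun ℓ _ i =>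
    (hfit i).map (algebraMap ℚ ℚ_[ℓ])
  have hsymL : ∀ (ℓ : ℕ) [Fact ℓ.Prime] (i : ι), (JL J ℓ i)ᵀ = JL J ℓ i → w i = 0 := by
    intro ℓ _ i h
    refine hw i ?_
    ext p q
    have h1 := congrFun (congrFun h p) q
    exact (algebraMap ℚ ℚ_[ℓ]).injective h1
  have hsys : ∀ (i : ι) (ℓ : ℕ) [Fact ℓ.Prime], Sys (MonoidHom.id (GK K)) (kd i) (N i) ℓ (ρ i ℓ)
      (JL J ℓ i) S (P i) (fun v => (Ideal.absNorm v.asIdeal : ℚ) ^ w i) := by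
    intro i ℓ _
    refine ⟨hρc i ℓ, hfitL ℓ i, hdetL ℓ i, fun γ => ⟨κ ℓ γ ^ w i, hmult i ℓ γ, fun h => ?_⟩, ?_⟩
    · rw [hsymL ℓ i h, pow_zero]
    · intro v hv hvℓ σ hσ
      refine ⟨hfrob i ℓ v hv hvℓ σ hσ, ?_⟩
      have h1 : Sim (JL J ℓ i) (ρ i ℓ σ⁻¹) (κ ℓ σ⁻¹ ^ w i) := hmult i ℓ σ⁻¹
      rw [hκ ℓ v hv hvℓ σ hσ] at h1
      show (ρ i ℓ σ⁻¹)ᵀ * JL J ℓ i * ρ i ℓ σ⁻¹ = (((Ideal.absNorm v.asIdeal : ℚ) ^ w i : ℚ) : ℚ_[ℓ]) •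
        JL J ℓ i
      rw [Rat.cast_pow, Rat.cast_natCast]
      exact h1
  exact several tasks (s := MonoidHom.id (GK K)) continuous_id hS ρ (fun i ℓ _ => JL J ℓ i)
    hsys ℓ₀ hal hfull

/-- the conclusion of the main theorem -/
def Concl (J : ∀ i, Matrix (Fin (N i)) (Fin (N i)) ℚ) (w : ι → ℕ) (ℓ : ℕ) [Fact ℓ.Prime]
    (κ : GK K →* ℚ_[ℓ]) (ρ : ∀ i, GK K →* Matrix (Fin (N i)) (Fin (N i)) ℚ_[ℓ]) : Prop :=
  ∀ (ι' : Type) [Fintype ι'] (d : ι' → ℕ)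
    (α : ∀ s, GK K →* Matrix (Fin (d s)) (Fin (d s)) ℚ_[ℓ]), (∀ s, Continuous (α s)) →
    (∀ s, (∀ i, Small (J i) (d s)) ∨
      ∃ U : Subgroup (GK K), IsOpen (U : Set (GK K)) ∧ ∀ σ ∈ U, ∀ τ ∈ U, α s σ * α s τ = α s τ * α s σ) →
    ∀ (k m : ℕ) (a : Fin k → ι) (b : Fin m → ι') (j : ℕ)
      (T : (∀ t, Fin (N (a t))) → (∀ t, Fin (d (b t))) → ℚ_[ℓ]),
      IsTate2 ρ α κ a b j T ↔
        T ∈ Submodule.span ℚ_[ℓ] {T' | ∃ (A : (∀ t, Fin (N (a t))) → ℚ)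
          (B : (∀ t, Fin (d (b t))) → ℚ_[ℓ]) (j' : ℕ), Killed J a A ∧ ∑ t, w (a t) = 2 * j' ∧
          IsTateT α κ b j j' B ∧ T' = prodT ℓ A B}

/-- **Tate classes on products with arbitrary small or potentially commutative representations, for 100
percent of the primes and for all primes with semisimple representations with scalar commutants** -/
theorem main (hS : S.Finite) (J : ∀ i, Matrix (Fin (N i)) (Fin (N i)) ℚ)
    (hfit : ∀ i, Fits (kd i) (J i)) (hdet : ∀ i, (J i).det ≠ 0) (hw : ∀ i, (J i)ᵀ = J i → w i = 0)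
    (κ : ∀ (ℓ : ℕ) [Fact ℓ.Prime], GK K →* ℚ_[ℓ]) (hκc : ∀ (ℓ : ℕ) [Fact ℓ.Prime], Continuous (κ ℓ))
    (hκ : ∀ (ℓ : ℕ) [Fact ℓ.Prime], ∀ v ∉ S, (ℓ : 𝓞 K) ∉ v.asIdeal → ∀ σ : GK K, IsFrobenius v σ →
      κ ℓ σ⁻¹ = (Ideal.absNorm v.asIdeal : ℚ_[ℓ]))
    (ρ : ∀ (i : ι) (ℓ : ℕ) [Fact ℓ.Prime], GK K →* Matrix (Fin (N i)) (Fin (N i)) ℚ_[ℓ])
    (hρc : ∀ (i : ι) (ℓ : ℕ) [Fact ℓ.Prime], Continuous (ρ i ℓ))
    (hmult : ∀ (i : ι) (ℓ : ℕ) [Fact ℓ.Prime] (g : GK K),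
      Sim (JL J ℓ i) (ρ i ℓ g) (κ ℓ g ^ w i))
    (hfrob : ∀ (i : ι) (ℓ : ℕ) [Fact ℓ.Prime], ∀ v ∉ S, (ℓ : 𝓞 K) ∉ v.asIdeal → ∀ σ : GK K,
      IsFrobenius v σ → (ρ i ℓ σ⁻¹).charpoly = (P i v).map (algebraMap ℚ ℚ_[ℓ]))
    (ℓ₀ : ℕ) [hℓ₀ : Fact ℓ₀.Prime] (hal : ∀ i, Allows (kd i) (N i) ℓ₀ (JL J ℓ₀ i))
    (hfull : ∀ X, (∀ i, SpLie (JL J ℓ₀ i) (X i)) → JTan ℓ₀ (fun i => ρ i ℓ₀) X) :
    Y142.ZI.DensityZero {ℓ | ∃ _ : Fact ℓ.Prime, ¬ Concl J w ℓ (κ ℓ) (fun i => ρ i ℓ)} ∧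
    ∀ (ℓ : ℕ) [Fact ℓ.Prime], (∀ i, SS (ρ i ℓ)) → (∀ i, SC (ρ i ℓ)) →
      Concl J w ℓ (κ ℓ) (fun i => ρ i ℓ) := by
  have key : ∀ (ℓ : ℕ) [Fact ℓ.Prime],
      (∀ X, (∀ i, SpLie (JL J ℓ i) (X i)) → JTan ℓ (fun i => ρ i ℓ) X) →
      Concl J w ℓ (κ ℓ) (fun i => ρ i ℓ) := by
    intro ℓ _ hX ι' _ d α hα hsm k m a b j T
    classical
    have hdetL : ∀ (i : ι), (JL J ℓ i).det ≠ 0 := fun i =>
      det_map_ne (algebraMap ℚ ℚ_[ℓ]) (hdet i)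
    have hfitL : ∀ (i : ι), Fits (kd i) (JL J ℓ i) := fun i =>
      (hfit i).map (algebraMap ℚ ℚ_[ℓ])
    refine tate2_rat (fun i => (hfitL i).isForm (hdetL i)) (fun i => (hfit i).pos) (fun i => ?_) hdet
      (fun i => hρc i ℓ) hα (hκc ℓ) (fun i g => hmult i ℓ g) hX (fun s => ?_) T
    · rcases (hfit i).symm with h | h
      · exact Or.inr (hw i h)
      · exact Or.inl h
    · rcases hsm s with h | h
      · exact Or.inl fun i => small_rank (hfit i).symm (hdet i) (h i) ℓ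
      · exact Or.inr h
  obtain ⟨h1, h2⟩ := full_of_one hS J hfit hdet hw κ hκ ρ hρc hmult hfrob ℓ₀ hal hfull
  refine ⟨h1.mono ?_, fun ℓ _ h3 h4 => key ℓ (h2 ℓ h3 h4)⟩
  rintro ℓ ⟨hp, hno⟩
  exact ⟨hp, fun h => hno (key ℓ h)⟩

end

end Pool.Agent.U190.JS
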